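import Pool.Agent.H75.PRL.S3

/-!
# Quadratic reciprocity over `F[t]`
-/

set_option autoImplicit false

namespace Pool.PRL

open Polynomial

namespace QRC

variable {F : Type} [Field F]

theorem norm_eq_res [Finite F] (P Q : F[X]) (hP : P.Monic) (hI : Irreducible P) :
    Algebra.norm F (AdjoinRoot.mk P Q) = resultant P Q := by
  classical
  have := Fact.mk hI
  have : FiniteDimensional F (AdjoinRoot P) := (AdjoinRoot.powerBasis hP.ne_zero).finite
  let E := AlgebraicClosure F
  apply (algebraMap F E).injective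
  have : Algebra.IsSeparable F (AdjoinRoot P) := inferInstance
  rw [Algebra.norm_eq_prod_embeddings F E, ← resultant_map_map]
  have h1 : (P.map (algebraMap F E)).Splits := IsAlgClosed.splits _
  have h2 := resultant_eq_prod_eval (P.map (algebraMap F E)) (Q.map (algebraMap F E)) Q.natDegree
    natDegree_map_le h1
  rw [natDegree_map, (hP.map _).leadingCoeff, one_pow, one_mul] at h2
  rw [h2]
  have hsep : P.Separable := PerfectField.separable_of_irreducible hI
  have hnd : (P.aroots E).Nodup := nodup_aroots_iff_of_splits hP.ne_zero h1 |>.2 hsep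
  have h3 : ((P.map (algebraMap F E)).roots.map (fun x => eval x (Q.map (algebraMap F E)))).prod =
      ∏ x ∈ (P.aroots E).toFinset, eval x (Q.map (algebraMap F E)) := by
    rw [Finset.prod, Multiset.toFinset_val, Multiset.dedup_eq_self.2 hnd]
  rw [show ((P.map (algebraMap F E)).roots.map (fun x => eval x (Q.map (algebraMap F E)))).prod =
      ∏ x ∈ (P.aroots E).toFinset, eval x (Q.map (algebraMap F E)) from h3]
  rw [Finset.prod_subtype (P.aroots E).toFinset (p := fun x => x ∈ P.aroots E)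
    (fun x => Multiset.mem_toFinset)]
  refine Fintype.prod_equiv (AdjoinRoot.equiv E F P hP.ne_zero) _ _ (fun σ => ?_)
  rw [eval_map]
  have h4 : ((AdjoinRoot.equiv E F P hP.ne_zero σ : {x // x ∈ P.aroots E}) : E) =
      σ (AdjoinRoot.root P) := rfl
  rw [h4, ← AdjoinRoot.aeval_eq, ← aeval_def, aeval_algHom_apply]

theorem sq_iff [Finite F] (h2 : (2 : F) ≠ 0) {a : F} (ha : a ≠ 0) :
    IsSquare a ↔ a ^ (Nat.card F / 2) = 1 := by
  have := Fintype.ofFinite F
  rw [Nat.card_eq_fintype_card]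
  exact FiniteField.isSquare_iff (fun h => h2 (by
    have h3 := ringChar.Nat.cast_ringChar (R := F)
    rw [h] at h3
    exact_mod_cast h3)) ha

theorem card_odd [Finite F] (h2 : (2 : F) ≠ 0) : ∃ m, Nat.card F = 2 * m + 1 := by
  have := Fintype.ofFinite F
  have h := FiniteField.odd_card_of_char_ne_two (F := F) (fun h => h2 (by
    have h3 := ringChar.Nat.cast_ringChar (R := F)
    rw [h] at h3
    exact_mod_cast h3))
  rw [Nat.card_eq_fintype_card]
  exact ⟨Fintype.card F / 2, by omega⟩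

/-- In an extension of finite fields, `x` is a square if and only if its norm is. -/
theorem norm_sq {K : Type} [Field K] [Finite K] [Finite F] [Algebra F K] (h2 : (2 : F) ≠ 0)
    {x : K} (hx : x ≠ 0) : IsSquare x ↔ IsSquare (Algebra.norm F x) := by
  have h2K : (2 : K) ≠ 0 := by
    intro h
    apply h2
    apply (algebraMap F K).injective
    rw [map_ofNat, map_zero, h]
  have hn : Algebra.norm F x ≠ 0 := Algebra.norm_ne_zero_iff.2 hx
  rw [sq_iff h2K hx, sq_iff h2 hn, ← (algebraMap F K).injective.eq_iff, map_pow, map_one,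
    FiniteField.algebraMap_norm_eq_pow, ← pow_mul]
  obtain ⟨m, hm⟩ := card_odd h2
  obtain ⟨n, hn2⟩ := card_odd h2K
  have hd : (Nat.card F - 1) ∣ (Nat.card K - 1) := by
    rw [Module.natCard_eq_pow_finrank (K := F) (V := K)]
    simpa using Nat.sub_dvd_pow_sub_pow (Nat.card F) 1 (Module.finrank F K)
  have h3 : (Nat.card K - 1) / (Nat.card F - 1) * (Nat.card F / 2) = Nat.card K / 2 := by
    obtain ⟨k, hk⟩ := hd
    have hm0 : 0 < m := by
      have := Finite.one_lt_card (α := F)
      omega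
    have e1 : Nat.card F - 1 = 2 * m := by omega
    have e2 : Nat.card F / 2 = m := by omega
    have e3 : Nat.card K / 2 = n := by omega
    rw [hk, e1, e2, e3, Nat.mul_div_cancel_left _ (by omega)]
    rw [e1] at hk
    have h5 : 2 * n = 2 * m * k := by omega
    have h6 : 2 * (k * m) = 2 * n := by rw [h5]; ring
    omega
  rw [h3]

theorem sqM_iff [Finite F] (h2 : (2 : F) ≠ 0) (P Q : F[X]) (hP : P.Monic) (hI : Irreducible P)
    (hQ : ¬ P ∣ Q) : SqM P Q ↔ IsSquare (resultant P Q) := by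
  have := Fact.mk hI
  have : FiniteDimensional F (AdjoinRoot P) := (AdjoinRoot.powerBasis hP.ne_zero).finite
  have : Finite (AdjoinRoot P) := Module.finite_of_finite F
  have h0 : AdjoinRoot.mk P Q ≠ 0 := fun h => hQ (AdjoinRoot.mk_eq_zero.1 h)
  rw [← norm_eq_res P Q hP hI, ← norm_sq h2 h0]
  constructor
  · rintro ⟨w, hw⟩
    refine ⟨AdjoinRoot.mk P w, ?_⟩
    rw [← map_mul, AdjoinRoot.mk_eq_mk, ← sq]
    exact hw
  · rintro ⟨y, hy⟩
    obtain ⟨w, rfl⟩ := AdjoinRoot.mk_surjective y
    refine ⟨w, ?_⟩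
    rw [← map_mul, AdjoinRoot.mk_eq_mk, ← sq] at hy
    exact hy

theorem sq_neg_pow [Finite F] (h2 : (2 : F) ≠ 0) (n : ℕ) (c : F) (hc : c ≠ 0) :
    IsSquare (c ^ n) ↔ (Even n ∨ IsSquare c) := by
  constructor
  · intro h
    by_contra hcon
    push Not at hcon
    obtain ⟨hn, hcs⟩ := hcon
    rw [Nat.not_even_iff_odd] at hn
    obtain ⟨k, rfl⟩ := hn
    apply hcs
    obtain ⟨w, hw⟩ := h
    refine ⟨w / c ^ k, ?_⟩
    have : c ^ k ≠ 0 := pow_ne_zero _ hc
    field_simp
    rw [sq w, ← hw]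
    ring
  · rintro (h | h)
    · exact h.isSquare_pow c
    · exact h.pow n

theorem sq_mul_iff [Finite F] (h2 : (2 : F) ≠ 0) {u v : F} (hu : u ≠ 0) (hv : v ≠ 0) :
    (IsSquare u ↔ IsSquare v) ↔ IsSquare (u * v) := by
  obtain ⟨m, hm⟩ := card_odd h2
  have key : ∀ a : F, a ≠ 0 → a ^ (Nat.card F / 2) = 1 ∨ a ^ (Nat.card F / 2) = -1 := by
    intro a ha
    have := Fintype.ofFinite F
    rw [Nat.card_eq_fintype_card]
    exact FiniteField.pow_dichotomy (fun h => h2 (by
      have h3 := ringChar.Nat.cast_ringChar (R := F)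
      rw [h] at h3
      exact_mod_cast h3)) ha
  rw [sq_iff h2 hu, sq_iff h2 hv, sq_iff h2 (mul_ne_zero hu hv), mul_pow]
  have hne : (1 : F) ≠ -1 := by
    intro h
    apply h2
    linear_combination h
  rcases key u hu with h | h <;> rcases key v hv with h' | h' <;> rw [h, h'] <;> simp [hne.symm]

end QRC

open QRC in
/-- Quadratic reciprocity over `F[t]`. -/
theorem qrc : QRCStmt := by
  intro F _ _ h2
  refine ⟨?_, ?_⟩
  · intro P Q hP hPI hQ hQI hne
    have h1 : ¬ P ∣ Q := fun h => hne (eq_of_monic_of_associated hP hQ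
      (hPI.associated_of_dvd hQI h))
    have h1' : ¬ Q ∣ P := fun h => hne (eq_of_monic_of_associated hQ hP
      (hQI.associated_of_dvd hPI h)).symm
    rw [sqM_iff h2 P Q hP hPI h1, sqM_iff h2 Q P hQ hQI h1']
    have hc : resultant P Q = (-1) ^ (P.natDegree * Q.natDegree) * resultant Q P :=
      resultant_comm _ _ _ _
    have hne : resultant Q P ≠ 0 := resultant_ne_zero Q P
      ((hQI.coprime_iff_not_dvd).2 h1')
    have h10 : (-1 : F) ≠ 0 := neg_ne_zero.2 one_ne_zero
    rw [hc, sq_mul_iff h2 (mul_ne_zero (pow_ne_zero _ h10) hne) hne, mul_assoc,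
      ← sq_neg_pow h2 _ (-1 : F) h10]
    constructor
    · rintro ⟨w, hw⟩
      refine ⟨w / resultant Q P, ?_⟩
      rw [div_mul_div_comm, ← hw, mul_div_assoc, div_self (mul_ne_zero hne hne), mul_one]
    · rintro ⟨w, hw⟩
      refine ⟨w * resultant Q P, ?_⟩
      rw [hw]
      ring
  · intro P c hP hPI hc
    have h1 : ¬ P ∣ C c := fun h => hPI.not_isUnit
      (isUnit_of_dvd_unit h (isUnit_C.2 (isUnit_iff_ne_zero.2 hc)))
    rw [sqM_iff h2 P (C c) hP hPI h1, resultant_C_right, natDegree_C, pow_zero, one_mul,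
      sq_neg_pow h2 _ c hc]

end Pool.PRL
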