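import Pool.Agent.H75.PRL.S3

/-!
# Orthogonal sums of a unit and of `P` times an anisotropic form are anisotropic
-/

set_option autoImplicit false

namespace Pool.PRL

open Polynomial Matrix Pool.AVR Pool.AVS Pool.RZ

namespace OAL

/-- Every nonzero vector has an entry of largest size. -/
theorem exists_big {L : Type} [Field L] (O : ValuationSubring L) (w : Fin 3 → L) (hw : w ≠ 0) :
    ∃ i, w i ≠ 0 ∧ ∀ j, w j / w i ∈ O := by
  obtain ⟨i, hi⟩ := Finite.exists_max (fun i => O.valuation (w i))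
  have h0 : w i ≠ 0 := by
    intro h
    apply hw
    funext j
    have h1 := hi j
    simp only [h, map_zero] at h1
    exact (map_eq_zero O.valuation).1 (le_antisymm h1 zero_le)
  refine ⟨i, h0, fun j => ?_⟩
  rw [← ValuationSubring.valuation_le_one_iff, map_div₀]
  exact div_le_one_of_le₀ (hi j) zero_le

theorem bil_smul {L : Type} [Field L] (M : Matrix (Fin 3) (Fin 3) L) (w : Fin 3 → L) (c : L) :
    bil M (fun i => w i / c) (fun i => w i / c) = bil M w w / c ^ 2 := by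
  simp only [bil, dotProduct, Matrix.mulVec, Fin.sum_univ_three]
  by_cases hc : c = 0
  · simp [hc]
  · field_simp

theorem bil_cong {L : Type} [Field L] (G g : Matrix (Fin 3) (Fin 3) L) (v : Fin 3 → L) :
    bil (gᵀ * G * g) v v = bil G (g *ᵥ v) (g *ᵥ v) := by
  simp only [bil]
  rw [← Matrix.mulVec_mulVec, ← Matrix.mulVec_mulVec, Matrix.dotProduct_mulVec,
    Matrix.vecMul_transpose]

/-- The main step: a primitive vector is not isotropic. -/
theorem prim {F : Type} [Field F] (P : F[X]) (L : Type) [Field L]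
    (O : ValuationSubring L) (ι : RatFunc F →+* L) (hc : IsComp F (IP P) (rf P) L O ι)
    (M : Matrix (Fin 3) (Fin 3) (RatFunc F)) (hM : Mᵀ = M) (h00 : UI (IP P) (M 0 0))
    (hij : ∀ i j, ¬ (i = 0 ∧ j = 0) → M i j / rf P ∈ IP P)
    (han : ∀ x y : RatFunc F, x ∈ IP P → y ∈ IP P →
      (M 1 1 * x ^ 2 + 2 * M 1 2 * (x * y) + M 2 2 * y ^ 2) / rf P ^ 2 ∈ IP P →
      x / rf P ∈ IP P ∧ y / rf P ∈ IP P)
    (w : Fin 3 → L) (hw : ∀ i, w i ∈ O) (hz : bil (M.map ι) w w = 0) (i : Fin 3) :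
    w i / ι (rf P) ∈ O := by
  set π := ι (rf P) with hπ
  have hp0 : π ≠ 0 := hc.loc.pi_ne
  have hpO : π ∈ O := hc.loc.pi_mem
  have hpi : π⁻¹ ∉ O := (hc.loc.unif π hpO hp0).2 (by rw [div_self hp0]; exact O.one_mem)
  have m00 : ι (M 0 0) ≠ 0 := (map_ne_zero ι).2 h00.1
  have m00i : (ι (M 0 0))⁻¹ ∈ O := by
    rw [← map_inv₀]
    exact (hc.mem _).2 h00.2.2
  have key : ∀ i j, ¬ (i = 0 ∧ j = 0) → ∃ b ∈ O, ι (M i j) = π * b := by
    intro i j h
    refine ⟨ι (M i j) / π, ?_, by field_simp⟩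
    rw [hπ, ← map_div₀]
    exact (hc.mem _).2 (hij i j h)
  have s10 : M 1 0 = M 0 1 := by
    have := congrFun (congrFun hM 0) 1
    rwa [Matrix.transpose_apply] at this
  have s20 : M 2 0 = M 0 2 := by
    have := congrFun (congrFun hM 0) 2
    rwa [Matrix.transpose_apply] at this
  have s21 : M 2 1 = M 1 2 := by
    have := congrFun (congrFun hM 1) 2
    rwa [Matrix.transpose_apply] at this
  obtain ⟨b01, hb01, e01⟩ := key 0 1 (by decide)
  obtain ⟨b02, hb02, e02⟩ := key 0 2 (by decide)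
  obtain ⟨b11, hb11, e11⟩ := key 1 1 (by decide)
  obtain ⟨b12, hb12, e12⟩ := key 1 2 (by decide)
  obtain ⟨b22, hb22, e22⟩ := key 2 2 (by decide)
  simp only [bil, dotProduct, Matrix.mulVec, Fin.sum_univ_three, Matrix.map_apply, s10, s20, s21,
    e01, e02, e11, e12, e22] at hz
  have h2 : (2 : L) ∈ O := by
    have : (2 : L) = 1 + 1 := by norm_num
    rw [this]
    exact O.add_mem _ _ O.one_mem O.one_mem
  -- the first coordinate
  have hw0 : w 0 ^ 2 / π ∈ O := by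
    have : w 0 ^ 2 / π = -((ι (M 0 0))⁻¹ * (2 * (b01 * (w 0 * w 1)) + 2 * (b02 * (w 0 * w 2)) +
        b11 * (w 1 * w 1) + 2 * (b12 * (w 1 * w 2)) + b22 * (w 2 * w 2))) := by
      field_simp
      linear_combination hz
    rw [this]
    refine O.neg_mem _ (O.mul_mem _ _ m00i ?_)
    refine O.add_mem _ _ (O.add_mem _ _ (O.add_mem _ _ (O.add_mem _ _ ?_ ?_) ?_) ?_) ?_
    · exact O.mul_mem _ _ h2 (O.mul_mem _ _ hb01 (O.mul_mem _ _ (hw _) (hw _)))
    · exact O.mul_mem _ _ h2 (O.mul_mem _ _ hb02 (O.mul_mem _ _ (hw _) (hw _)))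
    · exact O.mul_mem _ _ hb11 (O.mul_mem _ _ (hw _) (hw _))
    · exact O.mul_mem _ _ h2 (O.mul_mem _ _ hb12 (O.mul_mem _ _ (hw _) (hw _)))
    · exact O.mul_mem _ _ hb22 (O.mul_mem _ _ (hw _) (hw _))
  have hw0' : w 0 / π ∈ O := by
    by_cases h0 : w 0 = 0
    · rw [h0, zero_div]
      exact O.zero_mem
    · refine (hc.loc.unif _ (hw 0) h0).1 (fun hinv => hpi ?_)
      have : π⁻¹ = (w 0 ^ 2 / π) * ((w 0)⁻¹ * (w 0)⁻¹) := by field_simp
      rw [this]
      exact O.mul_mem _ _ hw0 (O.mul_mem _ _ hinv hinv)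
  obtain ⟨u, hu, hwu⟩ : ∃ u ∈ O, w 0 = π * u := ⟨w 0 / π, hw0', by field_simp⟩
  -- the binary form
  have hbin : (b11 * (w 1 * w 1) + 2 * (b12 * (w 1 * w 2)) + b22 * (w 2 * w 2)) / π ∈ O := by
    have : (b11 * (w 1 * w 1) + 2 * (b12 * (w 1 * w 2)) + b22 * (w 2 * w 2)) / π =
        -(ι (M 0 0) * (u * u) + 2 * (b01 * (u * w 1)) + 2 * (b02 * (u * w 2))) := by
      rw [hwu] at hz
      rw [div_eq_iff hp0]
      apply mul_left_cancel₀ hp0
      linear_combination hz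
    rw [this]
    refine O.neg_mem _ (O.add_mem _ _ (O.add_mem _ _ ?_ ?_) ?_)
    · exact O.mul_mem _ _ ((hc.mem _).2 h00.2.1) (O.mul_mem _ _ hu hu)
    · exact O.mul_mem _ _ h2 (O.mul_mem _ _ hb01 (O.mul_mem _ _ hu (hw _)))
    · exact O.mul_mem _ _ h2 (O.mul_mem _ _ hb02 (O.mul_mem _ _ hu (hw _)))
  obtain ⟨x, hx⟩ := hc.dense (w 1) 1
  obtain ⟨y, hy⟩ := hc.dense (w 2) 1
  rw [pow_one] at hx hy
  obtain ⟨p, hp, hwp⟩ : ∃ p ∈ O, w 1 = ι x + π * p :=
    ⟨(w 1 - ι x) / ι (rf P), hx, by rw [← hπ]; field_simp; ring⟩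
  obtain ⟨q, hq, hwq⟩ : ∃ q ∈ O, w 2 = ι y + π * q :=
    ⟨(w 2 - ι y) / ι (rf P), hy, by rw [← hπ]; field_simp; ring⟩
  have hxO : ι x ∈ O := by
    have : ι x = w 1 - π * p := by rw [hwp]; ring
    rw [this]
    exact sub_mem (hw 1) (O.mul_mem _ _ hpO hp)
  have hyO : ι y ∈ O := by
    have : ι y = w 2 - π * q := by rw [hwq]; ring
    rw [this]
    exact sub_mem (hw 2) (O.mul_mem _ _ hpO hq)
  have hfin := han x y ((hc.mem _).1 hxO) ((hc.mem _).1 hyO) (by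
    rw [← hc.mem, map_div₀, map_pow, ← hπ, map_add, map_add, map_mul, map_mul, map_mul, map_mul,
      map_mul, map_pow, map_pow, e11, e12, e22, map_ofNat]
    have : (π * b11 * ι x ^ 2 + 2 * (π * b12) * (ι x * ι y) + π * b22 * ι y ^ 2) / π ^ 2 =
        (b11 * (w 1 * w 1) + 2 * (b12 * (w 1 * w 2)) + b22 * (w 2 * w 2)) / π -
        (b11 * (p * (w 1 + ι x)) + 2 * (b12 * (p * w 2 + ι x * q)) + b22 * (q * (w 2 + ι y))) := by
      rw [hwp, hwq]
      field_simp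
      ring
    rw [this]
    refine sub_mem hbin (O.add_mem _ _ (O.add_mem _ _ ?_ ?_) ?_)
    · exact O.mul_mem _ _ hb11 (O.mul_mem _ _ hp (O.add_mem _ _ (hw _) hxO))
    · exact O.mul_mem _ _ h2 (O.mul_mem _ _ hb12
        (O.add_mem _ _ (O.mul_mem _ _ hp (hw _)) (O.mul_mem _ _ hxO hq)))
    · exact O.mul_mem _ _ hb22 (O.mul_mem _ _ hq (O.add_mem _ _ (hw _) hyO)))
  have hx1 : ι x / π ∈ O := by
    rw [hπ, ← map_div₀]
    exact (hc.mem _).2 hfin.1
  have hy1 : ι y / π ∈ O := by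
    rw [hπ, ← map_div₀]
    exact (hc.mem _).2 hfin.2
  fin_cases i
  · exact hw0'
  · show w 1 / π ∈ O
    rw [hwp, add_div, mul_div_cancel_left₀ _ hp0]
    exact O.add_mem _ _ hx1 hp
  · show w 2 / π ∈ O
    rw [hwq, add_div, mul_div_cancel_left₀ _ hp0]
    exact O.add_mem _ _ hy1 hq

end OAL

open OAL in
/-- A form of type `OAP P` is anisotropic over the completion at `P`. -/
theorem oal : OALStmt := by
  intro F _ P _ L _ O ι hc G hG hO hiso
  obtain ⟨g, hg, h00, hij, han⟩ := hO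
  obtain ⟨z, hz, hz0⟩ := hiso
  have hdet : IsUnit (g.map ι).det := by
    rw [← RingHom.mapMatrix_apply, ← RingHom.map_det]
    exact isUnit_iff_ne_zero.2 ((map_ne_zero ι).2 hg)
  obtain ⟨v, hv⟩ : ∃ v, g.map ι *ᵥ v = z :=
    ⟨(g.map ι)⁻¹ *ᵥ z, by rw [Matrix.mulVec_mulVec, Matrix.mul_nonsing_inv _ hdet,
      Matrix.one_mulVec]⟩
  have hv0 : v ≠ 0 := by
    rintro rfl
    rw [Matrix.mulVec_zero] at hv
    exact hz hv.symm
  have hMv : bil ((gᵀ * G * g).map ι) v v = 0 := by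
    rw [← hz0, ← hv, ← bil_cong, Matrix.map_mul, Matrix.map_mul, Matrix.transpose_map]
  obtain ⟨i, hi0, hi⟩ := exists_big O v hv0
  have h1 := prim P L O ι hc (gᵀ * G * g) (by
    rw [Matrix.transpose_mul, Matrix.transpose_mul, Matrix.transpose_transpose, hG,
      Matrix.mul_assoc]) h00 hij han (fun j => v j / v i) hi
    (by rw [bil_smul, hMv, zero_div]) i
  have hp0 := hc.loc.pi_ne
  have hpi : (ι (rf P))⁻¹ ∉ O :=
    (hc.loc.unif _ hc.loc.pi_mem hp0).2 (by rw [div_self hp0]; exact O.one_mem)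
  apply hpi
  rwa [div_self hi0, one_div] at h1

end Pool.PRL
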